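import Mathlib
import Pool.Agent.N928.EA.Stm

/-!
# Peierls estimate at a good vertex
-/

set_option autoImplicit false

namespace Pool.Agent.N186.EA

open Pool.Agent.N928.EA

theorem kt_degree (k : ℕ) (a : List (Fin k)) : (kt k).degree a ≤ k + 1 := by
  classical
  rw [← SimpleGraph.card_neighborFinset_eq_degree]
  have h : (kt k).neighborFinset a ⊆
      (Finset.univ.image (fun i : Fin k => i :: a)) ∪ {a.tail} := by
    intro b hb
    rw [SimpleGraph.mem_neighborFinset] at hb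
    rw [Finset.mem_union, Finset.mem_image, Finset.mem_singleton]
    rcases hb with ⟨i, h⟩ | ⟨i, h⟩
    · left; exact ⟨i, Finset.mem_univ _, h.symm⟩
    · right; rw [h]; rfl
  refine (Finset.card_le_card h).trans ((Finset.card_union_le _ _).trans ?_)
  have h1 : (Finset.univ.image (fun i : Fin k => i :: a)).card ≤ k :=
    Finset.card_image_le.trans (by simp)
  simp only [Finset.card_singleton]
  omega

theorem pg_degree (k : ℕ) {W : Type} (H : SimpleGraph W) [H.LocallyFinite] (D : ℕ)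
    (hD : ∀ h, H.degree h ≤ D) (x : PV k W) : (PG k H).degree x ≤ k + 1 + D := by
  classical
  have h : (PG k H).degree x = (kt k).degree x.1 + H.degree x.2 := by
    rw [← SimpleGraph.degree_boxProd]
  rw [h]
  exact add_le_add (kt_degree k x.1) (hD x.2)

section flip

variable {V : Type}

open Classical in
/-- flip on `A` inside `Λ` -/
noncomputable def fη {Λ : Finset V} (A : Finset V) (η : Λ → Bool) : Λ → Bool :=
  fun x => if (x : V) ∈ A then !(η x) else η x

theorem fη_invol {Λ : Finset V} (A : Finset V) : Function.Involutive (fη (Λ := Λ) A) := by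
  intro η
  funext x
  unfold fη
  by_cases h : (x : V) ∈ A <;> simp [h]

theorem flp_glue {Λ A : Finset V} (hA : A ⊆ Λ) (η : Λ → Bool) (ω : V → Bool) :
    flp A (glue Λ η ω) = glue Λ (fη A η) ω := by
  funext x
  unfold flp glue fη
  by_cases h : x ∈ A
  · have h' := hA h
    simp [h, h']
  · by_cases h' : x ∈ Λ <;> simp [h, h']

open Classical in
theorem Zp_flip (G : SimpleGraph V) [G.LocallyFinite] (β : ℝ) (J : Coupling G)
    {Λ : Finset V} (A : Finset V) (ω : V → Bool) :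
    ∑ η : Λ → Bool, Real.exp (β * ham G J Λ (glue Λ (fη A η) ω)) = Zp G β J Λ ω := by
  unfold Zp
  exact Equiv.sum_comp ((fη_invol (Λ := Λ) A).toPerm)
    (fun η => Real.exp (β * ham G J Λ (glue Λ η ω)))

end flip

theorem geo (N : ℕ) : ∑ n ∈ Finset.Icc 1 N, (1 / 5 : ℝ) ^ n ≤ 1 / 4 := by
  have h : ∑ n ∈ Finset.Icc 1 N, (1 / 5 : ℝ) ^ n = 1 / 4 - 1 / 4 * (1 / 5) ^ N := by
    induction N with
    | zero => simp
    | succ N ih =>
      rw [Finset.sum_Icc_succ_top (by omega), ih, pow_succ]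
      ring
  rw [h]
  have : (0 : ℝ) < (1 / 5) ^ N := by positivity
  linarith

open Classical in
/-- the sum over the connected sets -/
theorem sum_sets (hC : St_CNT) {V : Type} (G : SimpleGraph V) [G.LocallyFinite] (Δ : ℕ)
    (hΔ : 1 ≤ Δ) (hdeg : ∀ v, G.degree v ≤ Δ) (v : V) (Λ : Finset V) (r : ℝ) (hr : 0 < r)
    (hr5 : (Δ : ℝ) ^ 2 * r ≤ 1 / 5) :
    ∑ A ∈ Λ.powerset.filter (fun A : Finset V => v ∈ A ∧ (G.induce (A : Set V)).Connected),
      r ^ A.card ≤ 1 / 4 := by
  set F := Λ.powerset.filter (fun A : Finset V => v ∈ A ∧ (G.induce (A : Set V)).Connected) with hF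
  have hmaps : ∀ A ∈ F, A.card ∈ Finset.Icc 1 Λ.card := by
    intro A hA
    rw [hF, Finset.mem_filter, Finset.mem_powerset] at hA
    rw [Finset.mem_Icc]
    exact ⟨Finset.card_pos.2 ⟨v, hA.2.1⟩, Finset.card_le_card hA.1⟩
  rw [← Finset.sum_fiberwise_of_maps_to hmaps]
  refine le_trans (Finset.sum_le_sum fun n hn => ?_) (geo Λ.card)
  have h1 : ∑ A ∈ F.filter (fun A => A.card = n), r ^ A.card =
      ((F.filter (fun A => A.card = n)).card : ℝ) * r ^ n := by
    rw [Finset.sum_congr rfl (fun A hA => by rw [(Finset.mem_filter.1 hA).2] :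
      ∀ A ∈ F.filter (fun A => A.card = n), r ^ A.card = r ^ n), Finset.sum_const, nsmul_eq_mul]
  rw [h1]
  obtain ⟨hfin, hle⟩ := hC V G Δ hΔ hdeg v n
  have h2 : (F.filter (fun A => A.card = n)).card ≤ Δ ^ (2 * n) := by
    refine le_trans ?_ hle
    rw [← Set.ncard_coe_finset]
    refine Set.ncard_le_ncard ?_ hfin
    intro A hA
    rw [Finset.mem_coe, Finset.mem_filter, hF, Finset.mem_filter] at hA
    exact ⟨hA.1.2.1, hA.2, hA.1.2.2⟩
  have h3 : ((F.filter (fun A => A.card = n)).card : ℝ) ≤ (Δ : ℝ) ^ (2 * n) := by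
    exact_mod_cast h2
  calc ((F.filter (fun A => A.card = n)).card : ℝ) * r ^ n ≤ (Δ : ℝ) ^ (2 * n) * r ^ n :=
        mul_le_mul_of_nonneg_right h3 (by positivity)
    _ = ((Δ : ℝ) ^ 2 * r) ^ n := by rw [mul_pow, pow_mul]
    _ ≤ (1 / 5) ^ n := pow_le_pow_left₀ (by positivity) hr5 n

open Classical in
/-- the component of `v` -/
theorem comp {V : Type} (G : SimpleGraph V) (M : Finset V) (v : V) (hv : v ∈ M) :
    ∃ A : Finset V, A ⊆ M ∧ v ∈ A ∧ (G.induce (A : Set V)).Connected ∧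
      ∀ x ∈ A, ∀ y ∈ M, G.Adj x y → y ∈ A := by
  set R : V → V → Prop := fun a b => G.Adj a b ∧ a ∈ M ∧ b ∈ M with hR
  set A := M.filter (fun x => Relation.ReflTransGen R v x) with hA
  have hvA : v ∈ A := Finset.mem_filter.2 ⟨hv, Relation.ReflTransGen.refl⟩
  refine ⟨A, Finset.filter_subset _ _, hvA, ?_, ?_⟩
  · rw [SimpleGraph.connected_iff_exists_forall_reachable]
    refine ⟨⟨v, hvA⟩, ?_⟩
    have key : ∀ x, Relation.ReflTransGen R v x → ∀ hx : x ∈ (A : Set V),
        (G.induce (A : Set V)).Reachable ⟨v, hvA⟩ ⟨x, hx⟩ := by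
      intro x hx
      induction hx with
      | refl => intro _; exact SimpleGraph.Reachable.refl _
      | tail h1 h2 ih =>
        intro hx
        have hb : _ ∈ (A : Set V) := Finset.mem_coe.2 (Finset.mem_filter.2 ⟨h2.2.1, h1⟩)
        refine (ih hb).trans (SimpleGraph.Adj.reachable ?_)
        rw [SimpleGraph.induce_adj]
        exact h2.1
    rintro ⟨x, hx⟩
    exact key x (Finset.mem_filter.1 (Finset.mem_coe.1 hx)).2 hx
  · intro x hx y hy hxy
    have hx' := Finset.mem_filter.1 hx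
    exact Finset.mem_filter.2 ⟨hy, hx'.2.tail ⟨hxy, hx'.1, hy⟩⟩

open Classical in
/-- the Peierls argument -/
theorem peierls (hC : St_CNT) {V : Type} (G : SimpleGraph V) [G.LocallyFinite] (Δ : ℕ)
    (hΔ : 1 ≤ Δ) (hdeg : ∀ v, G.degree v ≤ Δ) (v : V) (Λ : Finset V) (β : ℝ)
    (hβ : 5 * (Δ : ℝ) ^ 2 ≤ Real.exp (2 * β)) (J : Coupling G) (ω : V → Bool)
    (f : (V → Bool) → ℝ) (hf : ∀ η : Λ → Bool, f (glue Λ η ω) = 0 ∨ (f (glue Λ η ω) = 1 ∧
      ∃ A : Finset V, A ⊆ Λ ∧ v ∈ A ∧ (G.induce (A : Set V)).Connected ∧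
        ham G J Λ (glue Λ η ω) + 2 * A.card ≤ ham G J Λ (flp A (glue Λ η ω)))) :
    gE G β J Λ ω f ≤ 1 / 4 := by
  have hΔ1r : (1 : ℝ) ≤ Δ := by exact_mod_cast hΔ
  have hβ0 : 0 < β := by
    have h1 : 1 < Real.exp (2 * β) := by nlinarith
    have := (Real.one_lt_exp_iff).1 h1
    linarith
  set r : ℝ := Real.exp (-(2 * β)) with hr
  have hr0 : 0 < r := Real.exp_pos _
  have hr5 : (Δ : ℝ) ^ 2 * r ≤ 1 / 5 := by
    have h1 : Real.exp (2 * β) * r = 1 := by rw [hr, ← Real.exp_add]; simp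
    nlinarith
  have hZ : 0 < Zp G β J Λ ω := by
    unfold Zp
    exact Finset.sum_pos (fun _ _ => Real.exp_pos _) ⟨fun _ => true, Finset.mem_univ _⟩
  set F := Λ.powerset.filter (fun A : Finset V => v ∈ A ∧ (G.induce (A : Set V)).Connected) with hF
  set T : (Λ → Bool) → ℝ := fun η => Real.exp (β * ham G J Λ (glue Λ η ω)) with hT
  unfold gE
  rw [div_le_iff₀ hZ]
  calc ∑ η : Λ → Bool, Real.exp (β * ham G J Λ (glue Λ η ω)) * f (glue Λ η ω)
      ≤ ∑ η : Λ → Bool, ∑ A ∈ F, r ^ A.card * T (fη A η) := by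
        refine Finset.sum_le_sum fun η _ => ?_
        have hpos : ∀ A : Finset V, 0 ≤ r ^ A.card * T (fη A η) := fun A =>
          mul_nonneg (pow_nonneg hr0.le _) (Real.exp_pos _).le
        rcases hf η with h | ⟨h, A, hAΛ, hvA, hconn, h3⟩
        · rw [h, mul_zero]
          exact Finset.sum_nonneg fun A _ => hpos A
        · rw [h, mul_one]
          have h5 : T η ≤ r ^ A.card * T (fη A η) := by
            simp only [hT]
            rw [hr, ← Real.exp_nat_mul, ← Real.exp_add]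
            refine Real.exp_le_exp.2 ?_
            rw [← flp_glue hAΛ]
            nlinarith
          refine h5.trans ?_
          refine Finset.single_le_sum (f := fun A => r ^ A.card * T (fη A η))
            (fun B _ => hpos B) ?_
          rw [hF, Finset.mem_filter, Finset.mem_powerset]
          exact ⟨hAΛ, hvA, hconn⟩
    _ = ∑ A ∈ F, r ^ A.card * Zp G β J Λ ω := by
        rw [Finset.sum_comm]
        refine Finset.sum_congr rfl fun A _ => ?_
        rw [← Finset.mul_sum, ← Zp_flip G β J A ω]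
    _ = (∑ A ∈ F, r ^ A.card) * Zp G β J Λ ω := by rw [Finset.sum_mul]
    _ ≤ 1 / 4 * Zp G β J Λ ω :=
        mul_le_mul_of_nonneg_right (sum_sets hC G Δ hΔ hdeg v Λ r hr0 hr5) hZ.le

theorem t_PEI : St_CNT → St_ENE → St_PEI := by
  intro hC hE k W H _ D hD J w h₀ hgood β hβ Λ hv ε ω hω
  have hΔr : ((k : ℝ) + 1 + D) = ((k + 1 + D : ℕ) : ℝ) := by push_cast; ring
  rw [hΔr] at hβ
  have hne : ∀ ε b : Bool, ¬ (b = ε) → b = !ε := by decide
  refine peierls hC (PG k H) (k + 1 + D) (by omega) (pg_degree k H D hD) (w, h₀) Λ β hβ J ω _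
    fun η => ?_
  by_cases hbad : (glue Λ η ω (w, h₀) == gau J w h₀) = ε
  · left
    exact if_pos hbad
  right
  refine ⟨if_neg hbad, ?_⟩
  set σ := glue Λ η ω with hσ
  classical
  obtain ⟨A, hAM, hvA, hconn, hcl⟩ := comp (PG k H)
    (Λ.filter (fun x : PV k W => w <:+ x.1 ∧ (σ x == gau J x.1 x.2) = !ε)) (w, h₀)
    (Finset.mem_filter.2 ⟨hv, List.suffix_refl w, hne _ _ hbad⟩)
  have hAΛ : A ⊆ Λ := hAM.trans (Finset.filter_subset _ _)
  have hAM' : ∀ x ∈ A, x ∈ Λ ∧ w <:+ x.1 ∧ (σ x == gau J x.1 x.2) = !ε := fun x hx =>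
    Finset.mem_filter.1 (hAM hx)
  have h1 := hE k W H J w A Λ σ ε hAΛ (fun x hx => (hAM' x hx).2.1)
    (fun x hx => (hAM' x hx).2.2) (fun x hx y hy hxy hwy => by
      by_contra hn
      by_cases hyΛ : y ∈ Λ
      · exact hy (hcl x hx y (Finset.mem_filter.2 ⟨hyΛ, hwy, hne _ _ hn⟩) hxy)
      · apply hn
        have h2 : σ y = ω y := by rw [hσ]; unfold glue; simp [hyΛ]
        rw [h2]
        exact hω y hyΛ hwy)
  have h2 := hgood A hvA (fun x hx => (hAM' x hx).2.1) hconn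
  refine ⟨A, hAΛ, hvA, hconn, ?_⟩
  have h4 : (A.card : ℝ) ≤ ((k : ℝ) - 1) * A.card + XA H (YY J) A := by linarith
  linarith

end Pool.Agent.N186.EA
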